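import Mathlib
import Pool.Agent.X119.CC.Sm
import Pool.Agent.X104.CC.G
import Pool.Agent.X101.CCN.Cnt
import Pool.Agent.X41.CC.Cyc
import Pool.Agent.X4.CC.ROLLE

/-!
# MP_1d6ef7_nt, Q1, the lower bound: `N_n ≥ 2k - 1`

For every product `n` of `k ≥ 1` distinct odd primes the derivative of the `n`-th cyclotomic
polynomial has at least `2k - 1` real roots.
-/

namespace Pool.Agent.Results.MP_1d6ef7_nt.CriticalPointsLower

open Polynomial

theorem result (s : Finset ℕ) (hs : ∀ p ∈ s, p.Prime ∧ Odd p) (hk : 1 ≤ s.card) :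
    2 * s.card - 1 ≤ (derivative (cyclotomic (∏ p ∈ s, p) ℝ)).roots.card := by
  have h := Pool.Agent.X119.CC.main Pool.Agent.X4.CC.rolle Pool.Agent.X104.CC.t_GM
    Pool.Agent.X104.CC.t_GP Pool.Agent.X41.CC.t Pool.Agent.X101.CCN.t_CNT s.toList
    (fun p hp => hs p (Finset.mem_toList.mp hp)) s.nodup_toList (by
      intro h0
      rw [Finset.toList_eq_nil] at h0
      rw [h0] at hk
      simp at hk)
  rwa [Finset.length_toList, show s.toList.prod = ∏ p ∈ s, p by
    rw [← Finset.prod_map_toList]; simp] at h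

end Pool.Agent.Results.MP_1d6ef7_nt.CriticalPointsLower
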