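import Mathlib
import Pool.Agent.X119.CC.Sm
import Pool.Agent.X104.CC.G
import Pool.Agent.X101.CCN.Cnt
import Pool.Agent.X41.CC.Cyc
import Pool.Agent.X4.CC.ROLLE
import Pool.Agent.X119.CD.Key
import Pool.Agent.X49.CD.SV
import Pool.Agent.X50.CD.NEG
import Pool.Agent.X263.CD.POS

/-!
# MP_1d6ef7_nt, the case `k = 2` of Q1 in full: `N_{pq} = 3`

For all distinct odd primes `p, q` the derivative of the `pq`-th cyclotomic polynomial has exactly
three real roots, counted with multiplicity.
-/

namespace Pool.Agent.Results.MP_1d6ef7_nt.TwoPrimesExact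

open Polynomial

theorem result (p q : ℕ) (hp : p.Prime) (hq : q.Prime) (hpo : Odd p) (hqo : Odd q) (hpq : p ≠ q) :
    (derivative (cyclotomic (p * q) ℝ)).roots.card = 3 := by
  apply le_antisymm
  · have key : ∀ p q : ℕ, p.Prime → q.Prime → Odd p → Odd q → p < q →
        (derivative (cyclotomic (p * q) ℝ)).roots.card ≤ 3 :=
      fun p q hp hq hpo hqo h => Pool.Agent.X119.CD.main3 
        (Pool.Agent.X50.CD.t_NEG Pool.Agent.X49.CD.t_SV Pool.Agent.X119.CD.t_KEY)
        (Pool.Agent.X263.CD.t_POS Pool.Agent.X49.CD.t_SV Pool.Agent.X119.CD.t_KEY) p q hp hq hpo hqo h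
    rcases lt_or_gt_of_ne hpq with h | h
    · exact key p q hp hq hpo hqo h
    · rw [mul_comm p q]
      exact key q p hq hp hqo hpo h
  · have h := Pool.Agent.X119.CC.main Pool.Agent.X4.CC.rolle Pool.Agent.X104.CC.t_GM
      Pool.Agent.X104.CC.t_GP Pool.Agent.X41.CC.t Pool.Agent.X101.CCN.t_CNT [p, q]
      (by
        intro x hx
        simp only [List.mem_cons, List.not_mem_nil, or_false] at hx
        rcases hx with rfl | rfl
        · exact ⟨hp, hpo⟩
        · exact ⟨hq, hqo⟩) (by simpa using hpq) (by simp)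
    simpa using h

end Pool.Agent.Results.MP_1d6ef7_nt.TwoPrimesExact
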